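import Mathlib
import Pool.Agent.Run7.h129.BH.Disp

set_option autoImplicit false

/-!
# Low and high frequencies of the discrepancy
-/

open Complex Filter Topology Set MeasureTheory Metric
open scoped Real FourierTransform Convolution ENNReal

namespace Pool.Agent.Run7.h129.BD

open Pool.Agent.W66 Pool.Agent.Run7.h129.BH

lemma four_cont {f : ℝ → ℂ} (hf : Integrable f) : Continuous (𝓕 f) :=
  VectorFourier.fourierIntegral_continuous Real.continuous_fourierChar (by exact continuous_inner) hf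

lemma four_memLp {f : ℝ → ℂ} (hf : Integrable f) (h2 : MemLp f 2) : MemLp (𝓕 f) 2 := by
  have h1 := Pool.Agent.Helper76.NormalHP.plancherel_lintegral f hf h2
  have hm : AEStronglyMeasurable (𝓕 f) volume := (four_cont hf).aestronglyMeasurable
  have h3 : ∫⁻ x, ‖f x‖ₑ ^ 2 < ∞ := by
    have h4 := h2.2
    rw [eLpNorm_lt_top_iff_lintegral_rpow_enorm_lt_top (by norm_num) (by norm_num)] at h4
    simpa using h4
  refine ⟨hm, ?_⟩
  rw [eLpNorm_lt_top_iff_lintegral_rpow_enorm_lt_top (by norm_num) (by norm_num)]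
  have h5 : ∫⁻ x, ‖𝓕 f x‖ₑ ^ 2 < ∞ := by rw [h1]; exact h3
  simpa using h5

lemma lint_sq {f : ℝ → ℂ} (h2 : MemLp f 2) : ∫⁻ x, ‖f x‖ₑ ^ 2 = ENNReal.ofReal (∫ x, ‖f x‖ ^ 2) := by
  rw [ofReal_integral_eq_lintegral_ofReal (h2.integrable_norm_pow (by norm_num))
    (Eventually.of_forall fun x => by simp only [Pi.zero_apply]; positivity)]
  congr 1
  ext x
  rw [← ofReal_norm, ← ENNReal.ofReal_pow (norm_nonneg _)]

lemma planch {f : ℝ → ℂ} (hf : Integrable f) (h2 : MemLp f 2) : ∫ x, ‖𝓕 f x‖ ^ 2 = ∫ x, ‖f x‖ ^ 2 := by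
  have h1 := Pool.Agent.Helper76.NormalHP.plancherel_lintegral f hf h2
  rw [lint_sq h2, lint_sq (four_memLp hf h2)] at h1
  exact (ENNReal.ofReal_eq_ofReal_iff (integral_nonneg fun x => by positivity)
    (integral_nonneg fun x => by positivity)).1 h1

lemma AA_cont (S : Finset ℕ) (a : ℕ → ℝ) : Continuous (AA S a) := by
  unfold AA
  fun_prop

lemma AA_le (S : Finset ℕ) (a : ℕ → ℝ) (ξ : ℝ) : ‖AA S a ξ‖ ≤ S.card := by
  unfold AA
  refine (norm_sum_le _ _).trans (le_of_eq ?_)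
  rw [Finset.sum_congr rfl fun m _ => Complex.norm_exp_ofReal_mul_I _]
  simp

theorem decomp {u h : ℝ} (hu : 1 ≤ u) (hh : 0 < h) (N : ℕ) (hN : Real.exp (u + 1) ≤ N)
    (S : Finset ℕ) (a : ℕ → ℝ) {M W G J : ℝ} (hM0 : 0 ≤ M) (hG0 : 0 ≤ G)
    (hM : ∀ ξ : ℝ, ‖PS u (2 * π * ξ) - PT u (2 * π * ξ)‖ * ‖𝓕 (boxC h) ξ‖ ≤ M)
    (hG : ∀ ξ : ℝ, W < |ξ| → ‖AA S a ξ‖ * ‖𝓕 (boxC h) ξ‖ ≤ G)
    (hJ : ∫ ξ in Icc (-W) W, ‖AA S a ξ‖ ≤ J) :
    ∃ F2 : ℝ → ℝ, Continuous F2 ∧ Integrable (fun x => F2 x ^ 2) ∧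
      (∀ x, |FS u h N S a x - F2 x| ≤ M * J) ∧
      ∫ x, F2 x ^ 2 ≤ G ^ 2 * ∫ x, qq u h N x ^ 2 := by
  have hFc := FS_continuous hh u N S a
  have hFs := FS_compact hh u N S a
  have hFL : MemLp (FS u h N S a) 2 := hFc.memLp_of_hasCompactSupport hFs
  have hFint : Integrable (FS u h N S a) := hFc.integrable_of_hasCompactSupport hFs
  set Fc : ℝ → ℂ := fun x => ((FS u h N S a x : ℝ) : ℂ) with hFcd
  have hFci : Integrable Fc := hFint.ofReal
  have hFcL : MemLp Fc 2 := hFL.ofReal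
  have hFcc : Continuous Fc := by rw [hFcd]; fun_prop
  set Q : ℝ → ℂ := fun x => ((qq u h N x : ℝ) : ℂ) with hQ
  have hQi : Integrable Q := qqC_integrable u h N
  have hQL : MemLp Q 2 := qqC_memLp u h N
  set Φ : ℝ → ℂ := 𝓕 Fc with hΦ
  have hΦe : ∀ ξ, Φ ξ = AA S a ξ * (𝓕 Q ξ * 𝓕 (boxC h) ξ) := by
    intro ξ
    rw [hΦ, hFcd, four_FS hu hh N hN, hQ, four_qq hu N hN]
  have hΦc : Continuous Φ := four_cont hFci
  have hbL : MemLp (boxC h) 2 := by
    have := (box_memLp h).ofReal (K := ℂ)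
    exact this
  have hΦi : Integrable Φ := by
    have h1 : Integrable fun ξ => 𝓕 Q ξ * 𝓕 (boxC h) ξ :=
      (four_memLp hQi hQL).integrable_mul (four_memLp (boxC_integrable h) hbL)
    have h2 : Integrable fun ξ => AA S a ξ * (𝓕 Q ξ * 𝓕 (boxC h) ξ) :=
      h1.bdd_mul (c := (S.card : ℝ)) (AA_cont S a).aestronglyMeasurable
        (Eventually.of_forall fun ξ => AA_le S a ξ)
    exact h2.congr (Eventually.of_forall fun ξ => (hΦe ξ).symm)
  have hΦL : MemLp Φ 2 := four_memLp hFci hFcL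
  set I0 : Set ℝ := Icc (-W) W with hI0
  have hI0m : MeasurableSet I0 := measurableSet_Icc
  set g1 : ℝ → ℂ := I0.indicator Φ with hg1
  set g2 : ℝ → ℂ := I0ᶜ.indicator Φ with hg2
  have hg1i : Integrable g1 := hΦi.indicator hI0m
  have hg2i : Integrable g2 := hΦi.indicator hI0m.compl
  have hg2L : MemLp g2 2 := hΦL.indicator hI0m.compl
  have hsum : ∀ x, Fc x = 𝓕⁻ g1 x + 𝓕⁻ g2 x := by
    intro x
    have h1 : 𝓕⁻ (𝓕 Fc) = Fc := hFcc.fourierInv_fourier_eq hFci hΦi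
    have h2 : 𝓕⁻ Φ x = Fc x := by rw [hΦ, h1]
    rw [← h2, Real.fourierInv_eq, Real.fourierInv_eq, Real.fourierInv_eq, ← integral_add]
    · refine integral_congr_ae (Eventually.of_forall fun ξ => ?_)
      simp only [hg1, hg2]
      rw [← smul_add]
      congr 1
      exact (congrFun (Set.indicator_self_add_compl I0 Φ) ξ).symm
    · exact (Real.fourierIntegral_convergent_iff (-x)).2 hg1i |>.congr (Eventually.of_forall fun ξ => by
        simp)
    · exact (Real.fourierIntegral_convergent_iff (-x)).2 hg2i |>.congr (Eventually.of_forall fun ξ => by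
        simp)
  have hF2c : Continuous fun x => (𝓕⁻ g2 x) := by
    have e : (fun x => 𝓕⁻ g2 x) = fun x => 𝓕 g2 (-x) := by
      ext x; rw [Real.fourierInv_eq_fourier_neg]
    rw [e]
    exact (four_cont hg2i).comp continuous_neg
  have hsq : ∀ z : ℂ, z.re ^ 2 ≤ ‖z‖ ^ 2 := by
    intro z
    rw [← sq_abs z.re]
    exact pow_le_pow_left₀ (abs_nonneg _) (Complex.abs_re_le_norm z) 2
  have hi2 : Integrable fun x => ‖𝓕⁻ g2 x‖ ^ 2 := by
    have h1 : Integrable fun x => ‖𝓕 g2 x‖ ^ 2 := (four_memLp hg2i hg2L).integrable_norm_pow (by norm_num)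
    have h2 := h1.comp_neg
    refine h2.congr (Eventually.of_forall fun x => ?_)
    simp only
    rw [Real.fourierInv_eq_fourier_neg]
  have hre : Integrable fun x => (𝓕⁻ g2 x).re ^ 2 := by
    refine hi2.mono' ?_ (Eventually.of_forall fun x => ?_)
    · exact ((Complex.continuous_re.comp hF2c).pow 2).aestronglyMeasurable
    · rw [Real.norm_of_nonneg (sq_nonneg _)]
      exact hsq _
  refine ⟨fun x => (𝓕⁻ g2 x).re, Complex.continuous_re.comp hF2c, hre, fun x => ?_, ?_⟩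
  · have h1 : FS u h N S a x - (𝓕⁻ g2 x).re = (𝓕⁻ g1 x).re := by
      have h2 := congrArg Complex.re (hsum x)
      rw [hFcd] at h2
      simp only [Complex.ofReal_re, Complex.add_re] at h2
      linarith
    rw [h1]
    refine (Complex.abs_re_le_norm _).trans ?_
    rw [Real.fourierInv_eq]
    refine (norm_integral_le_integral_norm _).trans ?_
    have h3 : ∀ ξ, ‖Real.fourierChar (inner ℝ ξ x) • g1 ξ‖ ≤ I0.indicator (fun ξ => M * ‖AA S a ξ‖) ξ := by
      intro ξ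
      rw [Circle.norm_smul, hg1]
      by_cases hξ : ξ ∈ I0
      · rw [Set.indicator_of_mem hξ, Set.indicator_of_mem hξ, hΦe, norm_mul, norm_mul, hQ,
          four_qq hu N hN, norm_mul]
        have h4 := hM ξ
        have h5 := norm_four_box_le_one hh ξ
        have h6 := norm_nonneg (AA S a ξ)
        have h7 : ‖PS u (2 * π * ξ) - PT u (2 * π * ξ)‖ * ‖𝓕 (boxC h) ξ‖ * ‖𝓕 (boxC h) ξ‖ ≤ M * 1 :=
          mul_le_mul h4 h5 (norm_nonneg _) hM0
        calc ‖AA S a ξ‖ * (‖PS u (2 * π * ξ) - PT u (2 * π * ξ)‖ * ‖𝓕 (boxC h) ξ‖ * ‖𝓕 (boxC h) ξ‖)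
            ≤ ‖AA S a ξ‖ * (M * 1) := mul_le_mul_of_nonneg_left h7 h6
          _ = _ := by ring
      · rw [Set.indicator_of_notMem hξ, Set.indicator_of_notMem hξ, norm_zero]
    have hint : IntegrableOn (fun ξ => M * ‖AA S a ξ‖) I0 := by
      refine Continuous.integrableOn_Icc ?_
      exact continuous_const.mul (AA_cont S a).norm
    calc ∫ ξ, ‖Real.fourierChar (inner ℝ ξ x) • g1 ξ‖ ≤ ∫ ξ, I0.indicator (fun ξ => M * ‖AA S a ξ‖) ξ := by
          refine integral_mono_of_nonneg (Eventually.of_forall fun ξ => norm_nonneg _)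
            ((integrable_indicator_iff hI0m).2 hint) (Eventually.of_forall h3)
      _ = M * ∫ ξ in I0, ‖AA S a ξ‖ := by rw [integral_indicator hI0m, integral_const_mul]
      _ ≤ M * J := mul_le_mul_of_nonneg_left hJ hM0
  · have e1 : ∫ x, ‖𝓕⁻ g2 x‖ ^ 2 = ∫ x, ‖g2 x‖ ^ 2 := by
      have e2 : (fun x => ‖𝓕⁻ g2 x‖ ^ 2) = fun x => ‖𝓕 g2 (-x)‖ ^ 2 := by
        ext x; rw [Real.fourierInv_eq_fourier_neg]
      rw [e2, integral_neg_eq_self (fun x => ‖𝓕 g2 x‖ ^ 2), planch hg2i hg2L]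
    calc ∫ x, (𝓕⁻ g2 x).re ^ 2 ≤ ∫ x, ‖𝓕⁻ g2 x‖ ^ 2 := integral_mono hre hi2 fun x => hsq _
      _ = ∫ x, ‖g2 x‖ ^ 2 := e1
      _ ≤ ∫ x, G ^ 2 * ‖𝓕 Q x‖ ^ 2 := by
          refine integral_mono (hg2L.integrable_norm_pow (by norm_num))
            (((four_memLp hQi hQL).integrable_norm_pow (by norm_num)).const_mul _) fun ξ => ?_
          simp only [hg2]
          by_cases hξ : ξ ∈ I0ᶜ
          · rw [Set.indicator_of_mem hξ, hΦe, ← mul_pow]
            refine pow_le_pow_left₀ (norm_nonneg _) ?_ 2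
            rw [norm_mul, norm_mul]
            have h4 : W < |ξ| := by
              rw [hI0, Set.mem_compl_iff, Set.mem_Icc, ← abs_le, not_le] at hξ
              exact hξ
            calc ‖AA S a ξ‖ * (‖𝓕 Q ξ‖ * ‖𝓕 (boxC h) ξ‖) = (‖AA S a ξ‖ * ‖𝓕 (boxC h) ξ‖) * ‖𝓕 Q ξ‖ := by ring
              _ ≤ G * ‖𝓕 Q ξ‖ := mul_le_mul_of_nonneg_right (hG ξ h4) (norm_nonneg _)
          · rw [Set.indicator_of_notMem hξ, norm_zero, zero_pow two_ne_zero]
            positivity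
      _ = G ^ 2 * ∫ x, ‖𝓕 Q x‖ ^ 2 := integral_const_mul _ _
      _ = G ^ 2 * ∫ x, qq u h N x ^ 2 := by
          rw [planch hQi hQL]
          congr 2
          ext x
          rw [hQ, Complex.norm_real, Real.norm_eq_abs, sq_abs]

end Pool.Agent.Run7.h129.BD
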