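import Mathlib
import Pool.Agent.Y957.VK.Fin1

set_option autoImplicit false

/-!
# Exponential sums `∑ n^(-it)` over blocks
-/

open Complex Filter Topology Set MeasureTheory Metric

namespace Pool.Agent.Run7.h129.BD

/-- the bound of Vinogradov and Korobov in a range of the form `N^(1/2) ≤ |t| ≤ N^A` -/
theorem zs_pow (A : ℝ) : ∃ C c : ℝ, 0 < C ∧ 0 < c ∧ c ≤ 1 / 10 ∧ ∀ (N N' : ℕ) (t : ℝ), 2 ≤ N → N ≤ N' →
    N' ≤ 2 * N → (N : ℝ) ^ (1 / 2 : ℝ) ≤ |t| → |t| ≤ (N : ℝ) ^ A →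
    ‖∑ n ∈ Finset.Ioc N N', (n : ℂ) ^ (-(t : ℂ) * Complex.I)‖ ≤ C * (N : ℝ) ^ (1 - c) := by
  obtain ⟨C, c, hc, hc1, h⟩ := Pool.Agent.Y957.VK.zs_all
  set A' : ℝ := max A 1 with hA'
  have hA1 : 1 ≤ A' := le_max_right _ _
  refine ⟨Real.exp (C * (1 + A') ^ C), c / (1 + A') ^ 2, Real.exp_pos _, by positivity, ?_,
    fun N N' t hN hNN hN2 ht1 ht2 => ?_⟩
  · refine (div_le_self hc.le ?_).trans hc1
    nlinarith
  have hN0 : (0 : ℝ) < N := by exact_mod_cast (by omega : 0 < N)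
  have hN1 : (1 : ℝ) < N := by exact_mod_cast (by omega : 1 < N)
  have hlogN : 0 < Real.log N := Real.log_pos hN1
  have ht0 : 0 < |t| := lt_of_lt_of_le (Real.rpow_pos_of_pos hN0 _) ht1
  set κ : ℝ := Real.log |t| / Real.log N with hκ
  have hκt : |t| = (N : ℝ) ^ κ := by
    rw [hκ, Real.rpow_def_of_pos hN0, mul_div_cancel₀ _ hlogN.ne', Real.exp_log ht0]
  have hκ1 : 1 / 2 ≤ κ := by
    rw [hκ, le_div_iff₀ hlogN, ← Real.log_rpow hN0]
    exact Real.log_le_log (Real.rpow_pos_of_pos hN0 _) ht1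
  have hκ2 : κ ≤ A' := by
    rw [hκ, div_le_iff₀ hlogN, ← Real.log_rpow hN0]
    refine Real.log_le_log ht0 (ht2.trans ?_)
    exact Real.rpow_le_rpow_of_exponent_le hN1.le (le_max_left _ _)
  refine (h N N' t κ hN hNN hN2 hκ1 hκt).trans ?_
  have e1 : Real.exp (C * (1 + κ) ^ C) ≤ Real.exp (C * (1 + A') ^ C) := by
    refine Real.exp_le_exp.2 (mul_le_mul_of_nonneg_left ?_ (Nat.cast_nonneg _))
    exact pow_le_pow_left₀ (by linarith) (by linarith) _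
  have e2 : (N : ℝ) ^ (1 - c / (1 + κ) ^ 2 : ℝ) ≤ (N : ℝ) ^ (1 - c / (1 + A') ^ 2 : ℝ) := by
    refine Real.rpow_le_rpow_of_exponent_le hN1.le ?_
    have : c / (1 + A') ^ 2 ≤ c / (1 + κ) ^ 2 := by
      refine div_le_div_of_nonneg_left hc.le (by positivity) ?_
      exact pow_le_pow_left₀ (by linarith) (by linarith) _
    linarith
  exact mul_le_mul e1 e2 (Real.rpow_nonneg hN0.le _) (Real.exp_pos _).le

lemma cpow_eq {x t : ℝ} (hx : 0 < x) : (x : ℂ) ^ (-(t : ℂ) * Complex.I) =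
    cexp (((-(t * Real.log x) : ℝ) : ℂ) * Complex.I) := by
  rw [Complex.cpow_def_of_ne_zero (by exact_mod_cast hx.ne'), ← Complex.ofReal_log hx.le]
  congr 1
  push_cast
  ring

lemma cpow_norm {x t : ℝ} (hx : 0 < x) : ‖(x : ℂ) ^ (-(t : ℂ) * Complex.I)‖ = 1 := by
  rw [cpow_eq hx, Complex.norm_exp_ofReal_mul_I]

/-- the oscillation of `x^(-it)` -/
lemma cpow_sub {x y t : ℝ} (hx : 0 < x) (hxy : x ≤ y) :
    ‖(x : ℂ) ^ (-(t : ℂ) * Complex.I) - (y : ℂ) ^ (-(t : ℂ) * Complex.I)‖ ≤ |t| * ((y - x) / x) := by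
  have hy : 0 < y := lt_of_lt_of_le hx hxy
  rw [cpow_eq hx, cpow_eq hy]
  have h1 : ‖cexp (((-(t * Real.log x) : ℝ) : ℂ) * Complex.I) -
      cexp (((-(t * Real.log y) : ℝ) : ℂ) * Complex.I)‖ ≤ |(-(t * Real.log x)) - (-(t * Real.log y))| := by
    have := Real.norm_exp_I_mul_ofReal_sub_one_le (x := (-(t * Real.log x)) - (-(t * Real.log y)))
    have e : cexp (((-(t * Real.log x) : ℝ) : ℂ) * Complex.I) -
      cexp (((-(t * Real.log y) : ℝ) : ℂ) * Complex.I) = cexp (((-(t * Real.log y) : ℝ) : ℂ) * Complex.I) *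
        (cexp (Complex.I * (((-(t * Real.log x)) - (-(t * Real.log y)) : ℝ) : ℂ)) - 1) := by
      rw [mul_sub, mul_one, ← Complex.exp_add]
      congr 2
      push_cast
      ring
    rw [e, norm_mul, Complex.norm_exp_ofReal_mul_I, one_mul]
    rw [Real.norm_eq_abs] at this
    exact this
  refine h1.trans ?_
  rw [show (-(t * Real.log x)) - (-(t * Real.log y)) = t * (Real.log y - Real.log x) by ring, abs_mul,
    abs_of_nonneg (sub_nonneg.2 (Real.log_le_log hx hxy)), ← Real.log_div hy.ne' hx.ne']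
  refine mul_le_mul_of_nonneg_left ?_ (abs_nonneg _)
  have := Real.log_le_sub_one_of_pos (div_pos hy hx)
  refine this.trans (le_of_eq ?_)
  field_simp

/-- the primitive -/
noncomputable def prim (t x : ℝ) : ℂ := (x : ℂ) ^ (1 - (t : ℂ) * Complex.I) / (1 - (t : ℂ) * Complex.I)

lemma one_sub_ne (t : ℝ) : (1 - (t : ℂ) * Complex.I) ≠ 0 := by
  intro h
  have := congrArg Complex.re h
  simp at this

lemma prim_deriv {t x : ℝ} (hx : 0 < x) :
    HasDerivAt (prim t) ((x : ℂ) ^ (-(t : ℂ) * Complex.I)) x := by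
  have h1 : HasDerivAt (fun z : ℂ => z ^ (1 - (t : ℂ) * Complex.I))
      ((1 - (t : ℂ) * Complex.I) * (x : ℂ) ^ ((1 - (t : ℂ) * Complex.I) - 1)) (x : ℂ) := by
    have h := (hasDerivAt_id (x : ℂ)).cpow_const (c := 1 - (t : ℂ) * Complex.I)
      (Or.inl (by simpa using hx))
    simpa using h
  have h2 := h1.comp_ofReal
  have h3 := h2.div_const (1 - (t : ℂ) * Complex.I)
  have e : (1 - (t : ℂ) * Complex.I) * (x : ℂ) ^ ((1 - (t : ℂ) * Complex.I) - 1) /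
      (1 - (t : ℂ) * Complex.I) = (x : ℂ) ^ (-(t : ℂ) * Complex.I) := by
    rw [mul_div_cancel_left₀ _ (one_sub_ne t)]
    congr 1
    ring
  rw [e] at h3
  exact h3

lemma prim_norm {t x : ℝ} (hx : 0 < x) (ht : t ≠ 0) : ‖prim t x‖ ≤ x / |t| := by
  unfold prim
  rw [norm_div, Complex.norm_cpow_eq_rpow_re_of_pos hx]
  have e : (1 - (t : ℂ) * Complex.I).re = 1 := by simp
  rw [e, Real.rpow_one]
  refine div_le_div_of_nonneg_left hx.le (abs_pos.2 ht) ?_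
  have h := Complex.abs_im_le_norm (1 - (t : ℂ) * Complex.I)
  simpa using h

lemma step {t : ℝ} {n : ℕ} (hn : 1 ≤ n) :
    ‖((n + 1 : ℕ) : ℂ) ^ (-(t : ℂ) * Complex.I) - (prim t ((n + 1 : ℕ) : ℝ) - prim t (n : ℝ))‖ ≤ |t| / n := by
  have hn0 : (0 : ℝ) < n := by exact_mod_cast hn
  set w : ℂ := ((n + 1 : ℕ) : ℂ) ^ (-(t : ℂ) * Complex.I) with hw
  have h := Convex.norm_image_sub_le_of_norm_hasDerivWithin_le (s := Icc (n : ℝ) ((n + 1 : ℕ) : ℝ))
    (f := fun x : ℝ => prim t x - (x : ℂ) * w) (f' := fun x : ℝ => (x : ℂ) ^ (-(t : ℂ) * Complex.I) - w)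
    (C := |t| / n) (x := (n : ℝ)) (y := ((n + 1 : ℕ) : ℝ)) ?_ ?_ (convex_Icc _ _) ?_ ?_
  · have e : (prim t ((n + 1 : ℕ) : ℝ) - (((n + 1 : ℕ) : ℝ) : ℂ) * w) - (prim t (n : ℝ) - ((n : ℝ) : ℂ) * w) =
        -(w - (prim t ((n + 1 : ℕ) : ℝ) - prim t (n : ℝ))) := by
      push_cast
      ring
    rw [e, norm_neg] at h
    refine h.trans (le_of_eq ?_)
    push_cast
    rw [show (n : ℝ) + 1 - n = 1 by ring]
    simp
  · intro x hx
    have hx0 : 0 < x := lt_of_lt_of_le hn0 hx.1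
    have h2 : HasDerivAt (fun x : ℝ => (x : ℂ) * w) w x := by
      have := (Complex.ofRealCLM.hasDerivAt (x := x)).mul_const w
      simpa using this
    exact ((prim_deriv hx0).sub h2).hasDerivWithinAt
  · intro x hx
    have hx0 : 0 < x := lt_of_lt_of_le hn0 hx.1
    have h3 := cpow_sub (t := t) hx0 hx.2
    rw [hw]
    have e : (((n + 1 : ℕ) : ℝ) : ℂ) = ((n + 1 : ℕ) : ℂ) := by push_cast; rfl
    rw [e] at h3
    refine h3.trans ?_
    rw [div_eq_mul_inv |t|]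
    refine mul_le_mul_of_nonneg_left ?_ (abs_nonneg _)
    rw [div_le_iff₀ hx0, inv_mul_eq_div, le_div_iff₀ hn0]
    have h4 := hx.1
    have h5 := hx.2
    push_cast at h5 ⊢
    nlinarith
  · exact ⟨le_rfl, by push_cast; linarith⟩
  · exact ⟨by push_cast; linarith, le_rfl⟩

/-- comparison with the integral -/
theorem em {N N' : ℕ} (t : ℝ) (hN : 1 ≤ N) (hNN : N ≤ N') (h2 : N' ≤ 2 * N) (ht : t ≠ 0) :
    ‖∑ n ∈ Finset.Ioc N N', (n : ℂ) ^ (-(t : ℂ) * Complex.I)‖ ≤ 3 * N / |t| + |t| := by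
  have key : ∀ M : ℕ, N ≤ M → ‖∑ n ∈ Finset.Ioc N M, (n : ℂ) ^ (-(t : ℂ) * Complex.I) -
      (prim t M - prim t N)‖ ≤ (M - N : ℕ) * (|t| / N) := by
    intro M hM
    induction M, hM using Nat.le_induction with
    | base => simp
    | succ M hM ih =>
      rw [Finset.sum_Ioc_succ_top hM, add_comm (∑ n ∈ Finset.Ioc N M, (n : ℂ) ^ (-(t : ℂ) * Complex.I))]
      have h3 := step (t := t) (n := M) (hN.trans hM)
      have hN0 : (0 : ℝ) < N := by exact_mod_cast hN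
      have hMN : (N : ℝ) ≤ M := by exact_mod_cast hM
      have h4 : |t| / M ≤ |t| / N := div_le_div_of_nonneg_left (abs_nonneg _) hN0 hMN
      have e : ((M + 1 : ℕ) : ℂ) ^ (-(t : ℂ) * Complex.I) + ∑ n ∈ Finset.Ioc N M, (n : ℂ) ^ (-(t : ℂ) * Complex.I) -
          (prim t ((M + 1 : ℕ) : ℝ) - prim t N) =
          (((M + 1 : ℕ) : ℂ) ^ (-(t : ℂ) * Complex.I) - (prim t ((M + 1 : ℕ) : ℝ) - prim t (M : ℝ))) +
          (∑ n ∈ Finset.Ioc N M, (n : ℂ) ^ (-(t : ℂ) * Complex.I) - (prim t M - prim t N)) := by ring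
      rw [e]
      refine (norm_add_le _ _).trans ?_
      have h5 : ((M + 1 - N : ℕ) : ℝ) = ((M - N : ℕ) : ℝ) + 1 := by
        rw [Nat.succ_sub hM]
        push_cast
        ring
      rw [h5]
      linarith
  have h3 := key N' hNN
  have hN0 : (0 : ℝ) < N := by exact_mod_cast hN
  have hN0' : (0 : ℝ) < N' := by exact_mod_cast (lt_of_lt_of_le hN hNN)
  have h4 : ((N' - N : ℕ) : ℝ) ≤ N := by
    have : N' - N ≤ N := by omega
    exact_mod_cast this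
  have h5 : ((N' - N : ℕ) : ℝ) * (|t| / N) ≤ |t| := by
    calc ((N' - N : ℕ) : ℝ) * (|t| / N) ≤ N * (|t| / N) := by gcongr
      _ = |t| := by field_simp
  have h6 : ‖prim t N' - prim t N‖ ≤ 3 * N / |t| := by
    refine (norm_sub_le _ _).trans ?_
    have p1 := prim_norm (t := t) hN0' ht
    have p2 := prim_norm (t := t) hN0 ht
    have h7 : (N' : ℝ) ≤ 2 * N := by exact_mod_cast h2
    have ht0 : 0 < |t| := abs_pos.2 ht
    have h8 : (N' : ℝ) / |t| ≤ 2 * N / |t| := by gcongr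
    calc ‖prim t N'‖ + ‖prim t N‖ ≤ 2 * N / |t| + N / |t| := by linarith
      _ = 3 * N / |t| := by ring
  calc ‖∑ n ∈ Finset.Ioc N N', (n : ℂ) ^ (-(t : ℂ) * Complex.I)‖ =
      ‖(∑ n ∈ Finset.Ioc N N', (n : ℂ) ^ (-(t : ℂ) * Complex.I) - (prim t N' - prim t N)) +
        (prim t N' - prim t N)‖ := by congr 1; ring
    _ ≤ _ := norm_add_le _ _
    _ ≤ _ := by linarith

end Pool.Agent.Run7.h129.BD
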