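import Mathlib
import Pool.Agent.Run7.h129.BD.Zs
import Pool.Agent.Run7.h129.BD.Dec
import Pool.Agent.Run7.h129.BH.Ener

set_option autoImplicit false

/-!
# The exponential sums over the blocks
-/

open Complex Filter Topology Set MeasureTheory Metric
open scoped Real FourierTransform

namespace Pool.Agent.Run7.h129.BD

open Pool.Agent.W66 Pool.Agent.Run7.h129.BH

/-- the logarithms of the powers -/
noncomputable def lg (κ : ℝ) (m : ℕ) : ℝ := κ * Real.log m

lemma AA_eq {η κ : ℝ} (i : ℕ) (ξ : ℝ) : AA (blk η i) (lg κ) ξ =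
    ∑ n ∈ Finset.Ioc ⌊Real.exp (i * η)⌋₊ ⌊Real.exp ((i + 1) * η)⌋₊,
      (n : ℂ) ^ (-((-(2 * π * κ * ξ) : ℝ) : ℂ) * Complex.I) := by
  unfold AA blk
  refine Finset.sum_congr rfl fun m hm => ?_
  rw [Finset.mem_Ioc] at hm
  have hm0 : (0 : ℝ) < m := by exact_mod_cast (by omega : 0 < m)
  have := cpow_eq (t := -(2 * π * κ * ξ)) hm0
  rw [Complex.ofReal_natCast] at this
  rw [this]
  congr 2
  unfold lg
  push_cast
  ring

/-- the elementary facts on a block -/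
lemma blk_facts {η : ℝ} {i : ℕ} (hη : 0 < η) (hη1 : η ≤ 1 / 10) (hX : 4 ≤ Real.exp (i * η)) :
    2 ≤ ⌊Real.exp (i * η)⌋₊ ∧ ⌊Real.exp (i * η)⌋₊ ≤ ⌊Real.exp ((i + 1) * η)⌋₊ ∧
    ⌊Real.exp ((i + 1) * η)⌋₊ ≤ 2 * ⌊Real.exp (i * η)⌋₊ ∧
    (⌊Real.exp (i * η)⌋₊ : ℝ) ≤ Real.exp (i * η) ∧ Real.exp (i * η) / 2 ≤ ⌊Real.exp (i * η)⌋₊ := by
  set X := Real.exp (i * η) with hXd
  have hX0 : 0 < X := Real.exp_pos _
  have h1 : (⌊X⌋₊ : ℝ) ≤ X := Nat.floor_le hX0.le
  have h2 : X < ⌊X⌋₊ + 1 := Nat.lt_floor_add_one _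
  have h3 : Real.exp ((i + 1) * η) ≤ 1.2 * X := by
    rw [show ((i : ℝ) + 1) * η = η + i * η by ring, Real.exp_add, ← hXd]
    refine mul_le_mul_of_nonneg_right ?_ hX0.le
    have := Real.exp_bound_div_one_sub_of_interval hη.le (by linarith : η < 1)
    refine this.trans ?_
    rw [div_le_iff₀ (by linarith)]
    linarith
  refine ⟨?_, ?_, ?_, h1, by linarith⟩
  · apply Nat.le_floor
    push_cast
    linarith
  · apply Nat.floor_le_floor
    rw [hXd]
    exact Real.exp_le_exp.2 (by nlinarith)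
  · have h4 : (⌊Real.exp ((i + 1) * η)⌋₊ : ℝ) ≤ Real.exp ((i + 1) * η) := Nat.floor_le (Real.exp_pos _).le
    have h5 : (⌊Real.exp ((i + 1) * η)⌋₊ : ℝ) ≤ ((2 * ⌊X⌋₊ : ℕ) : ℝ) := by
      push_cast
      linarith
    exact_mod_cast h5

lemma blk_card_le {η : ℝ} {i : ℕ} (hη : 0 < η) (hη1 : η ≤ 1 / 10) (hX : 4 ≤ Real.exp (i * η)) :
    ((blk η i).card : ℝ) ≤ Real.exp (i * η) := by
  obtain ⟨h1, h2, h3, h4, h5⟩ := blk_facts hη hη1 hX
  unfold blk
  rw [Nat.card_Ioc]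
  have h6 : ⌊Real.exp ((i + 1) * η)⌋₊ - ⌊Real.exp (i * η)⌋₊ ≤ ⌊Real.exp (i * η)⌋₊ := by omega
  have h7 : ((⌊Real.exp ((i + 1) * η)⌋₊ - ⌊Real.exp (i * η)⌋₊ : ℕ) : ℝ) ≤ (⌊Real.exp (i * η)⌋₊ : ℝ) := by
    exact_mod_cast h6
  linarith

theorem AA_blk {κ : ℝ} (hκ : 0 < κ) {A : ℝ} (hA : 1 ≤ A) : ∃ C c X0 : ℝ, 0 < C ∧ 0 < c ∧ c ≤ 1 / 10 ∧
    4 ≤ X0 ∧ ∀ (η : ℝ) (i : ℕ), 0 < η → η ≤ 1 / 10 → X0 ≤ Real.exp (i * η) →
    (∀ ξ : ℝ, |ξ| ≤ Real.exp (i * η / 4) → ‖AA (blk η i) (lg κ) ξ‖ ≤ C * Real.exp (i * η) / (1 + |ξ|)) ∧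
    (∀ ξ : ℝ, Real.exp (i * η / 4) ≤ |ξ| → |ξ| ≤ Real.exp (A * (i * η)) →
      ‖AA (blk η i) (lg κ) ξ‖ ≤ C * Real.exp ((1 - c) * (i * η))) := by
  obtain ⟨C, c, hC, hc, hc1, hz⟩ := zs_pow (2 * A + 2)
  set w : ℝ := 2 * π * κ with hw
  have hπ := Real.pi_pos
  have hw0 : 0 < w := by positivity
  refine ⟨C + 2 + 6 / w + 2 * w + 1, c, max 4 (max w 4), by positivity, hc, hc1, le_max_left _ _,
    fun η i hη hη1 hX => ?_⟩
  have hX4 : 4 ≤ Real.exp (i * η) := (le_max_left _ _).trans hX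
  have hXw : w ≤ Real.exp (i * η) := ((le_max_left _ _).trans (le_max_right _ _)).trans hX
  obtain ⟨h1, h2, h3, h4, h5⟩ := blk_facts hη hη1 hX4
  set X := Real.exp (i * η) with hXd
  have hX0 : 0 < X := Real.exp_pos _
  set N : ℕ := ⌊X⌋₊ with hN
  set N' : ℕ := ⌊Real.exp ((i + 1) * η)⌋₊ with hN'
  have hN0 : (0 : ℝ) < N := by exact_mod_cast (by omega : 0 < N)
  have htriv : ∀ ξ, ‖AA (blk η i) (lg κ) ξ‖ ≤ X := fun ξ =>
    (AA_le _ _ ξ).trans (blk_card_le hη hη1 hX4)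
  have hem : ∀ ξ : ℝ, ξ ≠ 0 → ‖AA (blk η i) (lg κ) ξ‖ ≤ 3 * X / (w * |ξ|) + w * |ξ| := by
    intro ξ hξ
    have ht : -(2 * π * κ * ξ) ≠ 0 := by
      rw [neg_ne_zero]
      exact mul_ne_zero hw0.ne' hξ
    have habs : |-(2 * π * κ * ξ)| = w * |ξ| := by
      rw [abs_neg, abs_mul, ← hw, abs_of_pos hw0]
    have h6 := em (N := N) (N' := N') (-(2 * π * κ * ξ)) (by omega) h2 h3 ht
    rw [habs] at h6
    rw [AA_eq]
    refine h6.trans ?_
    have hx : 0 < |ξ| := abs_pos.2 hξ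
    gcongr
  refine ⟨fun ξ hξ => ?_, fun ξ hξ1 hξ2 => ?_⟩
  · have hx0 := abs_nonneg ξ
    rcases le_or_gt |ξ| 1 with h6 | h6
    · refine (htriv ξ).trans ?_
      rw [le_div_iff₀ (by linarith)]
      have h7 : 1 + |ξ| ≤ 2 := by linarith
      have h8 : (0:ℝ) ≤ 6 / w := by positivity
      nlinarith
    · have hξ0 : ξ ≠ 0 := by
        rintro rfl
        simp at h6
        linarith
      refine (hem ξ hξ0).trans ?_
      rw [le_div_iff₀ (by linarith)]
      have hsq : |ξ| ^ 2 ≤ X := by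
        calc |ξ| ^ 2 ≤ Real.exp (i * η / 4) ^ 2 := pow_le_pow_left₀ hx0 hξ 2
          _ = Real.exp (i * η / 2) := by rw [← Real.exp_nat_mul]; congr 1; push_cast; ring
          _ ≤ X := Real.exp_le_exp.2 (by have : 0 ≤ i * η := by positivity
                                         linarith)
      have h7 : 3 * X / (w * |ξ|) * (1 + |ξ|) ≤ 6 / w * X := by
        rw [div_mul_eq_mul_div, div_mul_eq_mul_div, div_le_div_iff₀ (by positivity) hw0]
        nlinarith [mul_pos hw0 hX0]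
      have h8 : w * |ξ| * (1 + |ξ|) ≤ 2 * w * X := by
        have h9 : |ξ| * (1 + |ξ|) ≤ 2 * X := by nlinarith
        calc w * |ξ| * (1 + |ξ|) = w * (|ξ| * (1 + |ξ|)) := by ring
          _ ≤ w * (2 * X) := mul_le_mul_of_nonneg_left h9 hw0.le
          _ = _ := by ring
      calc (3 * X / (w * |ξ|) + w * |ξ|) * (1 + |ξ|) = 3 * X / (w * |ξ|) * (1 + |ξ|) +
            w * |ξ| * (1 + |ξ|) := by ring
        _ ≤ 6 / w * X + 2 * w * X := add_le_add h7 h8
        _ ≤ (C + 2 + 6 / w + 2 * w + 1) * X := by nlinarith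
  · have hx0 : 0 < |ξ| := lt_of_lt_of_le (Real.exp_pos _) hξ1
    have hξ0 : ξ ≠ 0 := abs_pos.1 hx0
    have habs : |-(2 * π * κ * ξ)| = w * |ξ| := by
      rw [abs_neg, abs_mul, ← hw, abs_of_pos hw0]
    have hiη : 0 ≤ i * η := by positivity
    have hXlog : Real.log 4 ≤ i * η := by
      have := Real.log_le_log (by norm_num) hX4
      rwa [hXd, Real.log_exp] at this
    rcases le_or_gt ((N : ℝ) ^ (1 / 2 : ℝ)) (w * |ξ|) with h6 | h6
    · have h7 : w * |ξ| ≤ (N : ℝ) ^ (2 * A + 2) := by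
        have h8 : Real.exp (i * η / 2) ≤ N := by
          have h9 : X / 2 = Real.exp (i * η / 2) * (Real.exp (i * η / 2) / 2) := by
            have : X = Real.exp (i * η / 2) * Real.exp (i * η / 2) := by
              rw [← Real.exp_add, hXd]; congr 1; ring
            rw [this]; ring
          have h10 : 2 ≤ Real.exp (i * η / 2) := by
            have : Real.exp (Real.log 4 / 2) ≤ Real.exp (i * η / 2) := Real.exp_le_exp.2 (by linarith)
            have h11 : Real.exp (Real.log 4 / 2) = 2 := by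
              rw [show (4 : ℝ) = 2 ^ 2 by norm_num, Real.log_pow]
              push_cast
              rw [mul_div_cancel_left₀ _ (two_ne_zero), Real.exp_log (by norm_num)]
            linarith
          calc Real.exp (i * η / 2) ≤ Real.exp (i * η / 2) * (Real.exp (i * η / 2) / 2) := by
                have := Real.exp_pos (i * η / 2)
                nlinarith
            _ = X / 2 := h9.symm
            _ ≤ N := h5
        calc w * |ξ| ≤ X * Real.exp (A * (i * η)) := mul_le_mul hXw hξ2 hx0.le hX0.le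
          _ = Real.exp (i * η / 2) ^ (2 * A + 2) := by
              rw [← Real.exp_mul, hXd, ← Real.exp_add]; congr 1; ring
          _ ≤ (N : ℝ) ^ (2 * A + 2) := Real.rpow_le_rpow (Real.exp_pos _).le h8 (by linarith)
      rw [← habs] at h6 h7
      have h8 := hz N N' (-(2 * π * κ * ξ)) h1 h2 h3 h6 h7
      rw [AA_eq]
      refine h8.trans ?_
      have h9 : (N : ℝ) ^ (1 - c) ≤ Real.exp ((1 - c) * (i * η)) := by
        calc (N : ℝ) ^ (1 - c) ≤ X ^ (1 - c) := Real.rpow_le_rpow hN0.le h4 (by linarith)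
          _ = _ := by rw [hXd, ← Real.exp_mul]; congr 1; ring
      have h10 : C ≤ C + 2 + 6 / w + 2 * w + 1 := by
        have : 0 ≤ 6 / w + 2 * w := by positivity
        linarith
      exact mul_le_mul h10 h9 (Real.rpow_nonneg hN0.le _) (by positivity)
    · refine (hem ξ hξ0).trans ?_
      have e1 : w * |ξ| ≤ Real.exp ((1 - c) * (i * η)) := by
        refine h6.le.trans ?_
        calc (N : ℝ) ^ (1 / 2 : ℝ) ≤ X ^ (1 / 2 : ℝ) := Real.rpow_le_rpow hN0.le h4 (by norm_num)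
          _ = Real.exp (i * η / 2) := by rw [hXd, ← Real.exp_mul]; congr 1; ring
          _ ≤ _ := Real.exp_le_exp.2 (by nlinarith)
      have e2 : 3 * X / (w * |ξ|) ≤ 6 / w * Real.exp ((1 - c) * (i * η)) := by
        rw [div_mul_eq_mul_div, div_le_div_iff₀ (by positivity) hw0]
        have e3 : X ≤ Real.exp ((1 - c) * (i * η)) * |ξ| := by
          calc X ≤ Real.exp ((1 - c) * (i * η)) * Real.exp (i * η / 4) := by
                rw [← Real.exp_add]
                exact Real.exp_le_exp.2 (by nlinarith)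
            _ ≤ _ := mul_le_mul_of_nonneg_left hξ1 (Real.exp_pos _).le
        nlinarith [mul_pos hw0 hX0, mul_le_mul_of_nonneg_left e3 hw0.le]
      have e4 := Real.exp_pos ((1 - c) * (i * η))
      calc 3 * X / (w * |ξ|) + w * |ξ| ≤ 6 / w * Real.exp ((1 - c) * (i * η)) +
            Real.exp ((1 - c) * (i * η)) := add_le_add e2 e1
        _ ≤ (C + 2 + 6 / w + 2 * w + 1) * Real.exp ((1 - c) * (i * η)) := by nlinarith

/-- the integral over the low frequencies -/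
lemma low_int {f : ℝ → ℝ} (hf : Continuous f) {W B : ℝ} (hW : 0 ≤ W) (hB : 0 ≤ B)
    (h : ∀ ξ : ℝ, |ξ| ≤ W → f ξ ≤ B / (1 + |ξ|)) : ∫ ξ in Icc (-W) W, f ξ ≤ 2 * B * Real.log (1 + W) := by
  have hc : Continuous fun ξ : ℝ => B / (1 + |ξ|) := by
    refine Continuous.div continuous_const (by fun_prop) fun ξ => ?_
    have := abs_nonneg ξ
    positivity
  have h1 : ∫ ξ in Icc (-W) W, f ξ ≤ ∫ ξ in Icc (-W) W, B / (1 + |ξ|) := by
    refine setIntegral_mono_on hf.integrableOn_Icc hc.integrableOn_Icc measurableSet_Icc fun ξ hξ => ?_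
    exact h ξ (abs_le.2 ⟨hξ.1, hξ.2⟩)
  refine h1.trans (le_of_eq ?_)
  rw [integral_Icc_eq_integral_Ioc, ← intervalIntegral.integral_of_le (by linarith),
    ← intervalIntegral.integral_add_adjacent_intervals (b := 0) (hc.intervalIntegrable _ _)
      (hc.intervalIntegrable _ _)]
  have e1 : ∫ ξ in (0 : ℝ)..W, B / (1 + |ξ|) = B * Real.log (1 + W) := by
    have e2 : ∫ ξ in (0 : ℝ)..W, B / (1 + |ξ|) = ∫ ξ in (0 : ℝ)..W, B * (1 + ξ)⁻¹ := by
      refine intervalIntegral.integral_congr fun ξ hξ => ?_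
      rw [Set.uIcc_of_le hW] at hξ
      show B / (1 + |ξ|) = B * (1 + ξ)⁻¹
      rw [abs_of_nonneg hξ.1, div_eq_mul_inv]
    rw [e2, intervalIntegral.integral_const_mul]
    congr 1
    rw [intervalIntegral.integral_comp_add_left (fun x => x⁻¹) 1, integral_inv_of_pos (by norm_num)
      (by linarith)]
    simp
  have e3 : ∫ ξ in (-W : ℝ)..0, B / (1 + |ξ|) = B * Real.log (1 + W) := by
    rw [← e1]
    have := intervalIntegral.integral_comp_neg (fun ξ : ℝ => B / (1 + |ξ|)) (a := 0) (b := W)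
    simp only [abs_neg, neg_zero] at this
    exact this.symm
  rw [e1, e3]
  ring

end Pool.Agent.Run7.h129.BD
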