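import Mathlib
import Pool.Agent.Run7.h129.BD.Aab
import Pool.Agent.Run7.h129.BH.Blk

set_option autoImplicit false

/-!
# The discrepancy over a block: a small part and a part with a power saving in mean square
-/

open Complex Filter Topology Set MeasureTheory Metric
open scoped Real FourierTransform

namespace Pool.Agent.Run7.h129.BD

open Pool.Agent.W66 Pool.Agent.Run7.h129.BH

/-- the width -/
noncomputable def hY (η Y : ℝ) : ℝ := η * Real.exp (-Y)

/-- the length of the sums -/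
noncomputable def NY (κ Y : ℝ) : ℕ := ⌈Real.exp (Y + κ + 10)⌉₊

lemma hY_pos {η : ℝ} (hη : 0 < η) (Y : ℝ) : 0 < hY η Y := by unfold hY; positivity

lemma poly_exp (c : ℝ) (hc : 0 < c) (C : ℝ) (n : ℕ) : ∀ᶠ x : ℝ in atTop, C * x ^ n ≤ Real.exp (c * x) := by
  have h1 : Tendsto (fun x : ℝ => (c * x) ^ n * Real.exp (-(c * x))) atTop (𝓝 0) :=
    (Real.tendsto_pow_mul_exp_neg_atTop_nhds_zero n).comp (tendsto_id.const_mul_atTop hc)
  have h2 := h1.const_mul (|C| / c ^ n)
  rw [mul_zero] at h2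
  filter_upwards [(tendsto_order.1 h2).2 1 one_pos, eventually_ge_atTop 0] with x hx hx0
  have hcn : 0 < c ^ n := by positivity
  have h3 : |C| / c ^ n * ((c * x) ^ n * Real.exp (-(c * x))) = |C| * x ^ n * Real.exp (-(c * x)) := by
    rw [mul_pow]
    field_simp
  rw [h3] at hx
  have h4 : Real.exp (-(c * x)) * Real.exp (c * x) = 1 := by rw [← Real.exp_add]; simp
  have h5 : |C| * x ^ n ≤ Real.exp (c * x) := by
    have h6 := mul_le_mul_of_nonneg_right hx.le (Real.exp_pos (c * x)).le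
    rw [one_mul, mul_assoc, h4, mul_one] at h6
    exact h6
  have h7 : C * x ^ n ≤ |C| * x ^ n := mul_le_mul_of_nonneg_right (le_abs_self _) (by positivity)
  linarith

theorem QB_dec {κ : ℝ} (hκ : 0 < κ) {A e0 : ℝ} (hA : 1 ≤ A) (he0 : 0 < e0) : ∃ c : ℝ, 0 < c ∧ c ≤ 1 / 10 ∧
    ∀ η : ℝ, 0 < η → η ≤ Real.exp (-(κ + 6)) → ∃ C : ℝ, 0 < C ∧ ∀ᶠ i : ℕ in atTop,
      ∀ Y : ℝ, e0 * (i * η) ≤ Y → Y ≤ A * (i * η) →
      ∃ Q2 : ℝ → ℝ, Continuous Q2 ∧ Integrable (fun x => Q2 x ^ 2) ∧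
        ∫ x, Q2 x ^ 2 ≤ Real.exp ((2 - c) * (i * η)) ∧
        ∀ x : ℝ, (∀ m ∈ blk η i, Y - 1 ≤ x + lg κ m ∧ x + lg κ m ≤ Y + 2) →
          |QB (hY η Y) (NY κ Y) (blk η i) (lg κ) x - Q2 x| ≤ C * Real.exp (i * η) / i := by
  obtain ⟨C1, c, X0, hC1, hc, hc1, hX0, hAA⟩ := AA_blk hκ (A := A + 2) (by linarith)
  obtain ⟨Cm, hCm, hm⟩ := M_le 2
  refine ⟨c, hc, hc1, fun η hη hηs => ?_⟩
  have hη6 : η ≤ Real.exp (-6) := hηs.trans (Real.exp_le_exp.2 (by linarith))
  have hη1 : η ≤ 1 / 10 := by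
    refine hη6.trans ?_
    have h1 := Real.add_one_le_exp (6 : ℝ)
    have h2 : Real.exp (-6) * Real.exp 6 = 1 := by rw [← Real.exp_add]; simp
    have h3 := Real.exp_pos (-6 : ℝ)
    have h4 : (10 : ℝ) ≤ Real.exp 6 := by
      have := Real.quadratic_le_exp_of_nonneg (x := 6) (by norm_num)
      linarith
    nlinarith
  set C' : ℝ := 16 * Cm * C1 * 7 * 2 / (e0 ^ 2 * η) with hC'
  refine ⟨C', by positivity, ?_⟩
  have hxt : Tendsto (fun i : ℕ => (i : ℝ) * η) atTop atTop :=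
    Tendsto.atTop_mul_const hη tendsto_natCast_atTop_atTop
  have ev1 : ∀ᶠ i : ℕ in atTop, X0 ≤ Real.exp (i * η) :=
    (Real.tendsto_exp_atTop.comp hxt).eventually_ge_atTop X0
  have ev2 : ∀ᶠ i : ℕ in atTop, 14 - Real.log η + 1 / η ≤ e0 * (i * η) :=
    (hxt.const_mul_atTop he0).eventually_ge_atTop _
  have ev3 := hxt.eventually (poly_exp c hc (49 * ((C1 + 1) ^ 2 * ((16 * Real.exp 4 / η + 2) * A ^ 3))) 3)
  have ev4 : ∀ᶠ i : ℕ in atTop, 1 ≤ (i : ℝ) * η := hxt.eventually_ge_atTop 1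
  have ev5 : ∀ᶠ i : ℕ in atTop, - Real.log η ≤ (i : ℝ) * η := hxt.eventually_ge_atTop _
  filter_upwards [ev1, ev2, ev3, ev4, ev5] with i e1 e2 e3 e4 e5 Y hY1 hY2
  obtain ⟨hlow, hhigh⟩ := hAA η i hη hη1 e1
  have hX4 : 4 ≤ Real.exp (i * η) := hX0.trans e1
  set X : ℝ := Real.exp (i * η) with hX
  have hXp : 0 < X := Real.exp_pos _
  set h : ℝ := hY η Y with hh
  have hh0 : 0 < h := hY_pos hη Y
  have hinv : 0 < 1 / η := by positivity
  have hlogη : Real.log η < 0 := Real.log_neg hη (by linarith)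
  have hY14 : 14 ≤ Y := by linarith
  have hh1 : h ≤ 1 := by
    rw [hh]; unfold hY
    calc η * Real.exp (-Y) ≤ 1 * 1 := by
          refine mul_le_mul (by linarith) ?_ (Real.exp_pos _).le (by norm_num)
          rw [Real.exp_le_one_iff]; linarith
      _ = 1 := one_mul 1
  set N : ℕ := NY κ Y with hN
  set fY : ℕ := ⌊Y⌋₊ with hfY
  have hf1 : (fY : ℝ) ≤ Y := Nat.floor_le (by linarith)
  have hf2 : Y < fY + 1 := Nat.lt_floor_add_one _
  have hf3 : 9 ≤ fY := by
    apply Nat.le_floor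
    push_cast
    linarith
  set u0 : ℕ := fY - 2 with hu0
  set U : ℕ := fY + 4 with hU
  have hu0r : (u0 : ℝ) = fY - 2 := by
    rw [hu0, Nat.cast_sub (by omega)]
    norm_num
  have hUr : (U : ℝ) = fY + 4 := by rw [hU]; push_cast; ring
  -- one scale
  have hu : ∀ u ∈ Finset.Icc u0 U, ∃ F2 : ℝ → ℝ, Continuous F2 ∧ Integrable (fun x => F2 x ^ 2) ∧
      (∀ x, |FS u h N (blk η i) (lg κ) x - F2 x| ≤ 16 * Cm * C1 * 2 / (e0 ^ 2 * η) * X / i) ∧
      ∫ x, F2 x ^ 2 ≤ (C1 + 1) ^ 2 * Real.exp ((2 - 2 * c) * (i * η)) * ((16 * Real.exp 4 / η + 2) * Y ^ 3) := by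
    intro u humem
    rw [Finset.mem_Icc] at humem
    have hu1 : (u0 : ℝ) ≤ u := by exact_mod_cast humem.1
    have hu2 : (u : ℝ) ≤ U := by exact_mod_cast humem.2
    have hu3 : Y - 3 ≤ u := by linarith
    have hu4 : (u : ℝ) ≤ Y + 4 := by linarith
    have hu5 : (1 : ℝ) ≤ u := by linarith
    have hNu : Real.exp ((u : ℝ) + 1) ≤ N := by
      refine le_trans (Real.exp_le_exp.2 ?_) (Nat.le_ceil _)
      linarith
    have hM : ∀ ξ : ℝ, ‖PS u (2 * π * ξ) - PT u (2 * π * ξ)‖ * ‖𝓕 (boxC h) ξ‖ ≤ Cm / (u : ℝ) ^ 2 := by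
      refine hm u h hu5 ?_
      rw [hh]; unfold hY
      rw [← Real.exp_log hη, ← Real.exp_add]
      exact Real.exp_le_exp.2 (by linarith)
    have hG : ∀ ξ : ℝ, Real.exp (i * η / 4) < |ξ| → ‖AA (blk η i) (lg κ) ξ‖ * ‖𝓕 (boxC h) ξ‖ ≤
        (C1 + 1) * Real.exp ((1 - c) * (i * η)) := by
      intro ξ hξ
      have hξp : 0 < |ξ| := (Real.exp_pos _).trans hξ
      have hE := Real.exp_pos ((1 - c) * (i * η))
      rcases le_or_gt |ξ| (Real.exp ((A + 2) * (i * η))) with h1 | h1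
      · have h2 := hhigh ξ hξ.le h1
        have h3 := norm_four_box_le_one hh0 ξ
        calc ‖AA (blk η i) (lg κ) ξ‖ * ‖𝓕 (boxC h) ξ‖ ≤ (C1 * Real.exp ((1 - c) * (i * η))) * 1 :=
              mul_le_mul h2 h3 (norm_nonneg _) (by positivity)
          _ ≤ _ := by nlinarith
      · have h2 : ‖AA (blk η i) (lg κ) ξ‖ ≤ X := (AA_le _ _ ξ).trans (blk_card_le hη hη1 hX4)
        have h3 := norm_four_box_le hh0 (abs_pos.1 hξp)
        have h4 : 1 / (h * |ξ|) ≤ Real.exp (-(i * η)) := by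
          rw [div_le_iff₀ (by positivity), hh]
          unfold hY
          have h5 : Real.exp (-(i * η)) * (η * Real.exp (-Y) * Real.exp ((A + 2) * (i * η))) ≤
              Real.exp (-(i * η)) * (η * Real.exp (-Y) * |ξ|) := by
            have : 0 < η * Real.exp (-Y) := by positivity
            gcongr
          refine le_trans ?_ h5
          rw [← Real.exp_log hη, ← Real.exp_add, ← Real.exp_add, ← Real.exp_add]
          rw [Real.exp_log hη, ← Real.exp_zero]
          refine Real.exp_le_exp.2 ?_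
          nlinarith
        calc ‖AA (blk η i) (lg κ) ξ‖ * ‖𝓕 (boxC h) ξ‖ ≤ X * Real.exp (-(i * η)) :=
              mul_le_mul h2 (h3.trans h4) (norm_nonneg _) hXp.le
          _ = 1 := by rw [hX, ← Real.exp_add]; simp
          _ ≤ Real.exp ((1 - c) * (i * η)) := Real.one_le_exp (mul_nonneg (by linarith) (by linarith))
          _ ≤ _ := by nlinarith
    have hJ := low_int (AA_cont (blk η i) (lg κ)).norm (W := Real.exp (i * η / 4)) (B := C1 * X)
      (Real.exp_pos _).le (by positivity) hlow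
    obtain ⟨F2, f1, f2, f3, f4⟩ := decomp hu5 hh0 N hNu (blk η i) (lg κ) (M := Cm / (u : ℝ) ^ 2)
      (by positivity) (by positivity) hM hG hJ
    refine ⟨F2, f1, f2, fun x => (f3 x).trans ?_, f4.trans ?_⟩
    · have g1 : Real.log (1 + Real.exp (i * η / 4)) ≤ 2 * (i * η) := by
        have g2 : (1 : ℝ) ≤ Real.exp (i * η / 4) := by
          rw [← Real.exp_zero]
          exact Real.exp_le_exp.2 (by linarith)
        have g3 : 1 + Real.exp (i * η / 4) ≤ Real.exp (1 + i * η / 4) := by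
          rw [Real.exp_add]
          have := Real.add_one_le_exp (1 : ℝ)
          nlinarith
        calc Real.log (1 + Real.exp (i * η / 4)) ≤ Real.log (Real.exp (1 + i * η / 4)) :=
              Real.log_le_log (by positivity) g3
          _ = 1 + i * η / 4 := Real.log_exp _
          _ ≤ _ := by linarith
      have g4 : Y / 2 ≤ u := by linarith
      have g5 : Cm / (u : ℝ) ^ 2 ≤ 4 * Cm / (e0 ^ 2 * (i * η) ^ 2) := by
        rw [div_le_div_iff₀ (by positivity) (by positivity)]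
        have g6 : e0 * (i * η) / 2 ≤ u := by linarith
        have g7 : (e0 * (i * η) / 2) ^ 2 ≤ (u : ℝ) ^ 2 := pow_le_pow_left₀ (by positivity) g6 2
        nlinarith
      have hl0 : 0 ≤ Real.log (1 + Real.exp (i * η / 4)) :=
        Real.log_nonneg (by have := Real.exp_pos (i * η / 4); linarith)
      calc Cm / (u : ℝ) ^ 2 * (2 * (C1 * X) * Real.log (1 + Real.exp (i * η / 4)))
          ≤ 4 * Cm / (e0 ^ 2 * (i * η) ^ 2) * (2 * (C1 * X) * (2 * (i * η))) := by gcongr
        _ = 16 * Cm * C1 / (e0 ^ 2 * η) * X / i := by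
            have hi0 : (0 : ℝ) < i := by
              by_contra hcon
              have : (i : ℝ) * η ≤ 0 := mul_nonpos_of_nonpos_of_nonneg (not_lt.1 hcon) hη.le
              linarith
            field_simp
            ring
        _ ≤ _ := by
            have : 16 * Cm * C1 / (e0 ^ 2 * η) ≤ 16 * Cm * C1 * 2 / (e0 ^ 2 * η) :=
              div_le_div_of_nonneg_right (by nlinarith [mul_pos hCm hC1]) (by positivity)
            exact div_le_div_of_nonneg_right (mul_le_mul_of_nonneg_right this hXp.le) (Nat.cast_nonneg _)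
    · have g1 := qq_sq hu5 hh0 (N := N) (h := h) (by
        rw [hh]; unfold hY
        calc η * Real.exp (-Y) ≤ Real.exp (-6) * Real.exp (-Y) := by gcongr
          _ = Real.exp (-6 + -Y) := (Real.exp_add _ _).symm
          _ ≤ _ := Real.exp_le_exp.2 (by linarith))
      have g2 := term_one (u := (u : ℝ)) (Y := Y) (K := 4) hη (by linarith) hu3 hu4 (by linarith) (by norm_num)
      have g3 : ((C1 + 1) * Real.exp ((1 - c) * (i * η))) ^ 2 =
          (C1 + 1) ^ 2 * Real.exp ((2 - 2 * c) * (i * η)) := by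
        rw [mul_pow, ← Real.exp_nat_mul]
        congr 2
        push_cast
        ring
      rw [g3]
      exact mul_le_mul_of_nonneg_left (g1.trans g2) (by positivity)
  choose! F2 f1 f2 f3 f4 using hu
  refine ⟨fun x => ∑ u ∈ Finset.Icc u0 U, F2 u x, continuous_finsetSum _ fun u hu => f1 u hu, ?_, ?_, ?_⟩
  · have hL : ∀ u ∈ Finset.Icc u0 U, MemLp (F2 u) 2 := fun u hu =>
      (memLp_two_iff_integrable_sq (f1 u hu).aestronglyMeasurable).2 (f2 u hu)
    exact (memLp_finsetSum _ hL).integrable_sq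
  · have hcard : (Finset.Icc u0 U).card = 7 := by rw [Nat.card_Icc]; omega
    have hL : ∀ u ∈ Finset.Icc u0 U, MemLp (F2 u) 2 := fun u hu =>
      (memLp_two_iff_integrable_sq (f1 u hu).aestronglyMeasurable).2 (f2 u hu)
    have g1 : ∫ x, (∑ u ∈ Finset.Icc u0 U, F2 u x) ^ 2 ≤ ∫ x, 7 * ∑ u ∈ Finset.Icc u0 U, F2 u x ^ 2 := by
      refine integral_mono (memLp_finsetSum _ hL).integrable_sq
        ((integrable_finsetSum _ fun u hu => f2 u hu).const_mul _) fun x => ?_
      have := Pool.Agent.W66.sum_sq_le (Finset.Icc u0 U) (fun u => F2 u x)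
      rw [hcard] at this
      exact_mod_cast this
    rw [integral_const_mul, integral_finsetSum _ fun u hu => f2 u hu] at g1
    have g2 : ∑ u ∈ Finset.Icc u0 U, ∫ x, F2 u x ^ 2 ≤ 7 * ((C1 + 1) ^ 2 * Real.exp ((2 - 2 * c) * (i * η)) *
        ((16 * Real.exp 4 / η + 2) * Y ^ 3)) := by
      refine (Finset.sum_le_sum fun u hu => f4 u hu).trans ?_
      rw [Finset.sum_const, hcard, nsmul_eq_mul]
      norm_num
    refine g1.trans ?_
    have g3 : Y ^ 3 ≤ A ^ 3 * (i * η) ^ 3 := by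
      rw [← mul_pow]
      exact pow_le_pow_left₀ (by linarith) hY2 3
    calc 7 * ∑ u ∈ Finset.Icc u0 U, ∫ x, F2 u x ^ 2 ≤ 7 * (7 * ((C1 + 1) ^ 2 *
          Real.exp ((2 - 2 * c) * (i * η)) * ((16 * Real.exp 4 / η + 2) * (A ^ 3 * (i * η) ^ 3)))) := by
          have : 0 < 16 * Real.exp 4 / η + 2 := by positivity
          refine mul_le_mul_of_nonneg_left (g2.trans ?_) (by norm_num)
          gcongr
      _ = (49 * ((C1 + 1) ^ 2 * ((16 * Real.exp 4 / η + 2) * A ^ 3)) * (i * η) ^ 3) *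
          Real.exp ((2 - 2 * c) * (i * η)) := by ring
      _ ≤ Real.exp (c * (i * η)) * Real.exp ((2 - 2 * c) * (i * η)) :=
          mul_le_mul_of_nonneg_right e3 (Real.exp_pos _).le
      _ = _ := by rw [← Real.exp_add]; congr 1; ring
  · intro x hx
    have g1 : QB h N (blk η i) (lg κ) x = ∑ u ∈ Finset.Icc u0 U, FS u h N (blk η i) (lg κ) x := by
      unfold QB FS
      rw [Finset.sum_comm]
      refine Finset.sum_congr rfl fun m hm => ?_
      obtain ⟨k1, k2⟩ := hx m hm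
      rw [TT_sub_one hh0 N u0 U (by omega) (by linarith) (by linarith)]
    rw [g1, ← Finset.sum_sub_distrib]
    refine (Finset.abs_sum_le_sum_abs _ _).trans ?_
    refine (Finset.sum_le_sum fun u hu => f3 u hu x).trans ?_
    have hcard : (Finset.Icc u0 U).card = 7 := by rw [Nat.card_Icc]; omega
    rw [Finset.sum_const, hcard, nsmul_eq_mul, hC']
    refine le_of_eq ?_
    push_cast
    ring

end Pool.Agent.Run7.h129.BD
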