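import Mathlib
import Pool.Agent.Run7.h129.BD.Qd
import Pool.Agent.Run7.h129.BH.AE

set_option autoImplicit false

/-!
# Few bad grid points
-/

open Complex Filter Topology Set MeasureTheory Metric
open scoped Real

namespace Pool.Agent.Run7.h129.BD

open Pool.Agent.W66 Pool.Agent.Run7.h129.BH

/-- the prime powers near `e^Y` -/
lemma pw_near {Y : ℝ} (hY : 5 ≤ Y) : ∑' n : ℕ, (if |Real.log n - Y| ≤ 4 then pw n else 0) ≤
    2 * Real.exp 6 * (Y + 4) * Real.exp (-Y / 2) := by
  have hx1 : (1 : ℝ) ≤ Real.exp (Y + 4) := Real.one_le_exp (by linarith)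
  have hsupp : ∀ n ∉ Finset.Ioc 0 ⌊Real.exp (Y + 4)⌋₊,
      (if |Real.log (n : ℝ) - Y| ≤ 4 then pw n else 0) = 0 := by
    intro n hn
    rw [Finset.mem_Ioc] at hn
    rw [if_neg]
    intro h1
    apply hn
    have h2 := abs_le.1 h1
    rcases Nat.eq_zero_or_pos n with h3 | h3
    · rw [h3] at h2
      simp at h2
      linarith [h2.1]
    · refine ⟨h3, Nat.le_floor ?_⟩
      have hn0 : (0 : ℝ) < n := by exact_mod_cast h3
      rw [← Real.exp_log hn0]
      exact Real.exp_le_exp.2 (by linarith [h2.2])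
  rw [tsum_eq_sum hsupp]
  have h1 : ∀ n ∈ Finset.Ioc 0 ⌊Real.exp (Y + 4)⌋₊, (if |Real.log (n : ℝ) - Y| ≤ 4 then pw n else 0) ≤
      if n.Prime then 0 else Real.exp (4 - Y) * ArithmeticFunction.vonMangoldt n := by
    intro n hn
    rw [Finset.mem_Ioc] at hn
    have hn0 : (0 : ℝ) < n := by exact_mod_cast hn.1
    have hL : (0:ℝ) ≤ ArithmeticFunction.vonMangoldt n := ArithmeticFunction.vonMangoldt_nonneg
    unfold pw
    by_cases hp : n.Prime
    · simp [hp]
    · rw [if_neg hp, if_neg hp]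
      split_ifs with h2
      · have h3 := (abs_le.1 h2).1
        have h4 : Real.exp (Y - 4) ≤ n := by
          rw [← Real.exp_log hn0]
          exact Real.exp_le_exp.2 (by linarith)
        rw [div_le_iff₀ hn0]
        have h5 : 1 ≤ Real.exp (4 - Y) * n := by
          calc (1 : ℝ) = Real.exp (4 - Y) * Real.exp (Y - 4) := by rw [← Real.exp_add]; simp
            _ ≤ _ := mul_le_mul_of_nonneg_left h4 (Real.exp_pos _).le
        nlinarith
      · positivity
  refine (Finset.sum_le_sum h1).trans ?_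
  have h2 : ∑ n ∈ Finset.Ioc 0 ⌊Real.exp (Y + 4)⌋₊,
      (if n.Prime then 0 else Real.exp (4 - Y) * ArithmeticFunction.vonMangoldt n) =
      Real.exp (4 - Y) * (Chebyshev.psi (Real.exp (Y + 4)) - Chebyshev.theta (Real.exp (Y + 4))) := by
    rw [Chebyshev.psi_sub_theta_eq_sum_not_prime, Finset.sum_filter, Finset.mul_sum]
    refine Finset.sum_congr rfl fun n _ => ?_
    split_ifs with hp
    · simp
    · rfl
  rw [h2]
  have h3 := Chebyshev.psi_sub_theta_le hx1
  rw [Real.log_exp] at h3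
  have h4 : √(Real.exp (Y + 4)) = Real.exp ((Y + 4) / 2) := by
    rw [Real.sqrt_eq_iff_mul_self_eq (Real.exp_pos _).le (Real.exp_pos _).le, ← Real.exp_add]
    congr 1
    ring
  rw [h4] at h3
  calc Real.exp (4 - Y) * (Chebyshev.psi (Real.exp (Y + 4)) - Chebyshev.theta (Real.exp (Y + 4))) ≤
        Real.exp (4 - Y) * (2 * Real.exp ((Y + 4) / 2) * (Y + 4)) :=
        mul_le_mul_of_nonneg_left h3 (Real.exp_pos _).le
    _ = 2 * (Real.exp (4 - Y) * Real.exp ((Y + 4) / 2)) * (Y + 4) := by ring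
    _ = 2 * (Real.exp 6 * Real.exp (-Y / 2)) * (Y + 4) := by
        rw [← Real.exp_add, ← Real.exp_add]
        congr 3
        ring
    _ = _ := by ring

/-- a good translate of the grid -/
lemma grid {f : ℝ → ℝ} (hf0 : ∀ x, 0 ≤ f x) (hfc : Continuous f) {a b h : ℝ} (hh : 0 < h) (n : ℕ)
    (hn : a + (n + 1) * h ≤ b) : ∃ θ ∈ Ico 0 h, ∑ k ∈ Finset.range n, f (a + θ + k * h) ≤
      (∫ x in Ico a b, f x) / h := by
  have hg : Continuous fun θ => ∑ k ∈ Finset.range n, f (a + θ + k * h) :=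
    continuous_finsetSum _ fun k _ => hfc.comp (by fun_prop)
  have h1 : ∫ θ in Ico 0 h, ∑ k ∈ Finset.range n, f (a + θ + k * h) ≤ ∫ x in Ico a b, f x := by
    have hI : ∫ θ in (0 : ℝ)..h, ∑ k ∈ Finset.range n, f (a + θ + k * h) =
        ∑ k ∈ Finset.range n, ∫ θ in (0 : ℝ)..h, f (a + θ + k * h) :=
      intervalIntegral.integral_finsetSum fun k _ =>
        (Continuous.intervalIntegrable (hfc.comp (by fun_prop : Continuous fun θ : ℝ => a + θ + k * h)) _ _)
    rw [integral_Ico_eq_integral_Ioc, ← intervalIntegral.integral_of_le hh.le, hI]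
    have h2 : ∀ k ∈ Finset.range n, ∫ θ in (0 : ℝ)..h, f (a + θ + k * h) =
        ∫ x in (a + (k : ℕ) * h)..(a + ((k + 1 : ℕ) : ℝ) * h), f x := by
      intro k _
      have := intervalIntegral.integral_comp_add_left (a := 0) (b := h) f (a + k * h)
      rw [add_zero] at this
      have e : a + k * h + h = a + ((k + 1 : ℕ) : ℝ) * h := by push_cast; ring
      rw [e] at this
      rw [← this]
      refine intervalIntegral.integral_congr fun θ _ => ?_
      show f (a + θ + k * h) = f (a + k * h + θ)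
      congr 1
      ring
    rw [Finset.sum_congr rfl h2, intervalIntegral.sum_integral_adjacent_intervals
      (a := fun k : ℕ => a + (k : ℝ) * h) fun k _ => hfc.intervalIntegrable _ _]
    have e0 : a + ((0 : ℕ) : ℝ) * h = a := by simp
    rw [e0, intervalIntegral.integral_of_le (by have : 0 ≤ (n : ℝ) * h := by positivity
                                                linarith), ← integral_Ico_eq_integral_Ioc]
    refine setIntegral_mono_set (hfc.integrableOn_Icc.mono_set Ico_subset_Icc_self)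
      (Eventually.of_forall fun x => hf0 x) ?_
    refine HasSubset.Subset.eventuallyLE (Ico_subset_Ico_right ?_)
    nlinarith
  have hm : volume (Ico 0 h) ≠ 0 := by
    rw [Real.volume_Ico]
    simpa using hh
  have hm2 : volume (Ico 0 h) ≠ ⊤ := by rw [Real.volume_Ico]; exact ENNReal.ofReal_ne_top
  obtain ⟨θ, hθ, hle⟩ := exists_le_setAverage hm hm2
    ((hg.integrableOn_Icc (a := 0) (b := h)).mono_set Ico_subset_Icc_self)
  refine ⟨θ, hθ, hle.trans ?_⟩
  rw [setAverage_eq, smul_eq_mul]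
  have e : volume.real (Ico 0 h) = h := by
    rw [Measure.real, Real.volume_Ico, sub_zero, ENNReal.toReal_ofReal hh.le]
  rw [e, inv_mul_eq_div]
  exact div_le_div_of_nonneg_right h1 hh.le

theorem bad_few {κ : ℝ} (hκ : 0 < κ) {A e0 : ℝ} (hA : 1 ≤ A) (he0 : 0 < e0) : ∃ c : ℝ, 0 < c ∧ c ≤ 1 / 10 ∧
    ∀ η : ℝ, 0 < η → η ≤ Real.exp (-(κ + 6)) → ∃ C : ℝ, 0 < C ∧ ∀ᶠ i : ℕ in atTop,
      ∀ Y : ℝ, e0 * (i * η) ≤ Y → Y ≤ A * (i * η) → ∀ a b : ℝ,
      (∀ x ∈ Icc a b, ∀ m ∈ blk η i, Y - 1 ≤ x + lg κ m ∧ x + lg κ m ≤ Y + 2) → ∀ n : ℕ,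
      a + (n + 1) * hY η Y ≤ b → ∃ θ ∈ Ico 0 (hY η Y),
      (((Finset.range n).filter fun k : ℕ => C * Real.exp (i * η) / i <
        |QR (hY η Y) (NY κ Y) (blk η i) (lg κ) (a + θ + k * hY η Y) - (blk η i).card|).card : ℝ) ≤
        Real.exp (-c * (i * η)) / hY η Y := by
  obtain ⟨c, hc, hc1, hQ⟩ := QB_dec hκ hA he0
  refine ⟨min c e0 / 8, by positivity, ?_, fun η hη hηs => ?_⟩
  · have := min_le_left c e0
    linarith
  obtain ⟨C, hC, hev⟩ := hQ η hη hηs
  have hη1 : η ≤ 1 / 10 := by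
    have hη6 : η ≤ Real.exp (-6) := hηs.trans (Real.exp_le_exp.2 (by linarith))
    refine hη6.trans ?_
    have h2 : Real.exp (-6) * Real.exp 6 = 1 := by rw [← Real.exp_add]; simp
    have h3 := Real.exp_pos (-6 : ℝ)
    have h4 : (10 : ℝ) ≤ Real.exp 6 := by
      have := Real.quadratic_le_exp_of_nonneg (x := 6) (by norm_num)
      linarith
    nlinarith
  set c2 : ℝ := min c e0 with hc2
  have hc20 : 0 < c2 := lt_min hc he0
  have hc2c : c2 ≤ c := min_le_left _ _
  have hc2e : c2 ≤ e0 := min_le_right _ _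
  refine ⟨C + 2, by positivity, ?_⟩
  have hxt : Tendsto (fun i : ℕ => (i : ℝ) * η) atTop atTop :=
    Tendsto.atTop_mul_const hη tendsto_natCast_atTop_atTop
  have ev1 := hxt.eventually (poly_exp (c2 / 8) (by positivity) (4 * (Real.exp 6 * 4 * A)) 1)
  have ev2 := hxt.eventually (poly_exp (c2 / 4) (by positivity) (1 / η) 1)
  have ev3 : ∀ᶠ i : ℕ in atTop, 5 ≤ e0 * (i * η) :=
    (hxt.const_mul_atTop he0).eventually_ge_atTop _
  have ev4 : ∀ᶠ i : ℕ in atTop, 4 ≤ Real.exp (i * η) :=
    (Real.tendsto_exp_atTop.comp hxt).eventually_ge_atTop 4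
  have ev5 := hxt.eventually (poly_exp (c2 / 8) (by positivity) 2 0)
  filter_upwards [hev, ev1, ev2, ev3, ev4, ev5] with i e1 e2 e3 e4 e5 e6 Y hY1 hY2 a b hwin n hn
  obtain ⟨Q2, q1, q2, q3, q4⟩ := e1 Y hY1 hY2
  set h : ℝ := hY η Y with hh
  have hh0 : 0 < h := hY_pos hη Y
  have hh1 : h ≤ 1 := by
    rw [hh]; unfold hY
    calc η * Real.exp (-Y) ≤ 1 * 1 := by
          refine mul_le_mul (by linarith) ?_ (Real.exp_pos _).le (by norm_num)
          rw [Real.exp_le_one_iff]; linarith
      _ = 1 := one_mul 1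
  set N : ℕ := NY κ Y with hN
  set S := blk η i with hS
  set X : ℝ := Real.exp (i * η) with hX
  have hX0 : 0 < X := Real.exp_pos _
  have hi0 : (0 : ℝ) < i := by
    by_contra hcon
    have : (i : ℝ) * η ≤ 0 := mul_nonpos_of_nonpos_of_nonneg (not_lt.1 hcon) hη.le
    have : e0 * ((i : ℝ) * η) ≤ 0 := mul_nonpos_of_nonneg_of_nonpos he0.le this
    linarith
  have hab : a ≤ b := by
    have : 0 ≤ ((n : ℝ) + 1) * h := by positivity
    linarith
  have hQPc : Continuous fun x => QP h N S (lg κ) x := by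
    unfold QP Pool.Agent.Run7.h129.BH.PP
    refine continuous_finsetSum _ fun m _ => continuous_finsetSum _ fun n _ => ?_
    exact continuous_const.mul ((tri_continuous _).comp (by fun_prop))
  set E1 : ℝ := Real.exp ((2 - c2 / 2) * (i * η)) with hE1
  set E2 : ℝ := Real.exp ((1 - c2 / 4) * (i * η)) with hE2
  have hE10 : 0 < E1 := Real.exp_pos _
  have hE20 : 0 < E2 := Real.exp_pos _
  have hE12 : E2 ^ 2 = E1 := by
    rw [hE1, hE2, ← Real.exp_nat_mul]
    congr 1
    push_cast
    ring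
  obtain ⟨θ, hθ, hsum⟩ := grid (f := fun x => Q2 x ^ 2 / E1 + QP h N S (lg κ) x / E2) (fun x => by
      have := QP_nonneg hh0 N S (lg κ) x
      positivity) (((q1.pow 2).div_const _).add (hQPc.div_const _)) hh0 n hn
  refine ⟨θ, hθ, ?_⟩
  have hint : ∫ x in Ico a b, (Q2 x ^ 2 / E1 + QP h N S (lg κ) x / E2) ≤ Real.exp (-(c2 / 8) * (i * η)) := by
    rw [integral_add (q2.integrableOn.div_const _)
      ((hQPc.div_const _).integrableOn_Icc.mono_set Ico_subset_Icc_self), integral_div, integral_div]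
    have i1 : ∫ x in Ico a b, Q2 x ^ 2 ≤ Real.exp ((2 - c) * (i * η)) :=
      (setIntegral_le_integral q2 (Eventually.of_forall fun x => sq_nonneg _)).trans q3
    have i2 : ∫ x in Ico a b, QP h N S (lg κ) x ≤ X * (2 * Real.exp 6 * (Y + 4) * Real.exp (-Y / 2)) := by
      have h1 := QP_int hh0 N S (lg κ) (b1 := a) (b2 := b) (s := 0) (Y := Y) (w := 4) (by
        intro x hx m hm n hn
        obtain ⟨w1, w2⟩ := hwin x (Ico_subset_Icc_self hx) m hm
        rw [sub_zero]
        rcases lt_abs.1 hn with h5 | h5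
        · rw [abs_sub_comm]
          refine le_trans ?_ (le_abs_self _)
          linarith
        · refine le_trans ?_ (le_abs_self _)
          linarith)
      simp only [sub_zero] at h1
      refine h1.trans ?_
      refine mul_le_mul (blk_card_le hη hη1 e5) (pw_near (by linarith)) ?_ hX0.le
      exact tsum_nonneg fun n => by split_ifs; exacts [pw_nonneg n, le_rfl]
    have hx0 : 0 ≤ (i : ℝ) * η := by positivity
    have j1 : (∫ x in Ico a b, Q2 x ^ 2) / E1 ≤ Real.exp (-(c2 / 2) * (i * η)) := by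
      rw [div_le_iff₀ hE10, hE1, ← Real.exp_add]
      refine i1.trans (Real.exp_le_exp.2 ?_)
      nlinarith
    have j2 : (∫ x in Ico a b, QP h N S (lg κ) x) / E2 ≤ 1 / 2 * Real.exp (-(c2 / 8) * (i * η)) := by
      rw [div_le_iff₀ hE20, hE2]
      refine i2.trans ?_
      have k1 : Real.exp (-Y / 2) ≤ Real.exp (-(c2 / 2) * (i * η)) :=
        Real.exp_le_exp.2 (by nlinarith)
      have k2 : Y + 4 ≤ 2 * (A * (i * η)) := by linarith
      rw [pow_one] at e2
      calc X * (2 * Real.exp 6 * (Y + 4) * Real.exp (-Y / 2)) ≤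
            X * (2 * Real.exp 6 * (2 * (A * (i * η))) * Real.exp (-(c2 / 2) * (i * η))) := by
            have : 0 < Real.exp 6 := Real.exp_pos _
            gcongr
        _ = X * (1 / 2 * (4 * (Real.exp 6 * 4 * A) * (i * η)) * Real.exp (-(c2 / 2) * (i * η))) * (1 / 2) := by
            ring
        _ ≤ X * (1 / 2 * Real.exp (c2 / 8 * (i * η)) * Real.exp (-(c2 / 2) * (i * η))) * 1 := by
            gcongr
            all_goals norm_num
        _ = 1 / 2 * (Real.exp (i * η) * Real.exp (c2 / 8 * (i * η)) * Real.exp (-(c2 / 2) * (i * η))) := by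
            rw [hX]; ring
        _ = 1 / 2 * (Real.exp (-(c2 / 8) * (i * η)) * Real.exp ((1 - c2 / 4) * (i * η))) := by
            rw [← Real.exp_add, ← Real.exp_add, ← Real.exp_add]
            congr 2
            ring
        _ = _ := by ring
    have j3 : Real.exp (-(c2 / 2) * (i * η)) ≤ 1 / 2 * Real.exp (-(c2 / 8) * (i * η)) := by
      rw [pow_zero, mul_one] at e6
      have k3 : 2 * Real.exp (-(c2 / 2) * (i * η)) ≤ Real.exp (c2 / 8 * (i * η)) * Real.exp (-(c2 / 2) * (i * η)) :=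
        mul_le_mul_of_nonneg_right e6 (Real.exp_pos _).le
      have k4 : Real.exp (c2 / 8 * (i * η)) * Real.exp (-(c2 / 2) * (i * η)) ≤ Real.exp (-(c2 / 8) * (i * η)) := by
        rw [← Real.exp_add]
        refine Real.exp_le_exp.2 ?_
        nlinarith
      linarith
    linarith
  have hbad : ∀ k ∈ (Finset.range n).filter (fun k : ℕ => (C + 2) * X / i <
      |QR h N S (lg κ) (a + θ + k * h) - S.card|),
      1 ≤ Q2 (a + θ + k * h) ^ 2 / E1 + QP h N S (lg κ) (a + θ + k * h) / E2 := by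
    intro k hk
    rw [Finset.mem_filter, Finset.mem_range] at hk
    obtain ⟨hk1, hk2⟩ := hk
    by_contra hcon
    rw [not_le] at hcon
    set x := a + θ + k * h with hx
    have hQP0 := QP_nonneg hh0 N S (lg κ) x
    have hxw : x ∈ Icc a b := by
      have h1 := hθ.1
      have h2 := hθ.2
      have h3 : (k : ℝ) + 1 ≤ n := by exact_mod_cast hk1
      have h4 : 0 ≤ (k : ℝ) * h := by positivity
      have h5 : ((k : ℝ) + 1) * h ≤ n * h := mul_le_mul_of_nonneg_right h3 hh0.le
      constructor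
      · rw [hx]; linarith
      · rw [hx]; nlinarith
    have r1 := q4 x fun m hm => hwin x hxw m hm
    have r2 : Q2 x ^ 2 / E1 < 1 := by
      have : 0 ≤ QP h N S (lg κ) x / E2 := by positivity
      linarith
    have r3 : QP h N S (lg κ) x / E2 < 1 := by
      have : 0 ≤ Q2 x ^ 2 / E1 := by positivity
      linarith
    rw [div_lt_one hE10, ← hE12] at r2
    rw [div_lt_one hE20] at r3
    have r4 : |Q2 x| < E2 := abs_lt_of_sq_lt_sq r2 hE20.le
    have r5 : QR h N S (lg κ) x - S.card = QB h N S (lg κ) x - QP h N S (lg κ) x := by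
      unfold QR QB QP
      rw [Finset.sum_sub_distrib, Finset.sum_const, nsmul_eq_mul, mul_one, sub_right_comm,
        ← Finset.sum_sub_distrib]
      congr 1
      refine Finset.sum_congr rfl fun m _ => ?_
      rw [TT_split]
      ring
    have r6 : E2 ≤ X / i := by
      rw [le_div_iff₀ hi0, hE2]
      rw [pow_one] at e3
      have r7 : (i : ℝ) ≤ Real.exp (c2 / 4 * (i * η)) := by
        refine le_trans (le_of_eq ?_) e3
        field_simp
      calc Real.exp ((1 - c2 / 4) * (i * η)) * i ≤ Real.exp ((1 - c2 / 4) * (i * η)) *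
            Real.exp (c2 / 4 * (i * η)) := mul_le_mul_of_nonneg_left r7 (Real.exp_pos _).le
        _ = X := by rw [← Real.exp_add, hX]; congr 1; ring
    rw [r5] at hk2
    have r8 : |QB h N S (lg κ) x - QP h N S (lg κ) x| ≤ |QB h N S (lg κ) x - Q2 x| + |Q2 x| +
        QP h N S (lg κ) x := by
      have e : QB h N S (lg κ) x - QP h N S (lg κ) x = (QB h N S (lg κ) x - Q2 x) + Q2 x +
        (-QP h N S (lg κ) x) := by ring
      rw [e]
      refine (abs_add_le _ _).trans (add_le_add (abs_add_le _ _) ?_)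
      rw [abs_neg, abs_of_nonneg hQP0]
    have r9 : (C + 2) * X / i = C * X / i + X / i + X / i := by ring
    rw [r9] at hk2
    linarith
  have hcard : (((Finset.range n).filter (fun k : ℕ => (C + 2) * X / i <
      |QR h N S (lg κ) (a + θ + k * h) - S.card|)).card : ℝ) ≤
      ∑ k ∈ Finset.range n, (Q2 (a + θ + k * h) ^ 2 / E1 + QP h N S (lg κ) (a + θ + k * h) / E2) := by
    rw [← nsmul_one, ← Finset.sum_const]
    refine (Finset.sum_le_sum hbad).trans ?_
    refine Finset.sum_le_sum_of_subset_of_nonneg (Finset.filter_subset _ _) fun k _ _ => ?_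
    have := QP_nonneg hh0 N S (lg κ) (a + θ + k * h)
    positivity
  refine hcard.trans (hsum.trans ?_)
  exact div_le_div_of_nonneg_right hint hh0.le

end Pool.Agent.Run7.h129.BD
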