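import Mathlib
import Pool.Agent.H107.MetricExc

set_option autoImplicit false

/-!
# The dimension of the set of the points near infinitely many bad grid points
-/

open Filter Topology Set MeasureTheory

namespace Pool.Agent.Run7.h129.BD

lemma dim_grid {κ η c K0 : ℝ} (hκ : 0 < κ) (hη : 0 < η) (hc : 0 < c) (hcκ : c ≤ κ) (hK0 : 0 < K0)
    (Bad : ℕ → Finset ℕ) (g : ℕ → ℕ → ℝ)
    (hb : ∀ᶠ i : ℕ in atTop, ((Bad i).card : ℝ) ≤ Real.exp (-c * (i * η)) / (K0 * Real.exp (-(κ * (i * η))))) :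
    dimH {v : ℝ | ∃ᶠ i : ℕ in atTop, ∃ k ∈ Bad i, |v - g i k| ≤ K0 * Real.exp (-(κ * (i * η)))} ≤
      ENNReal.ofReal (1 - c / κ) := by
  classical
  set h : ℕ → ℝ := fun i => K0 * Real.exp (-(κ * (i * η))) with hh
  have hh0 : ∀ i, 0 < h i := fun i => by rw [hh]; positivity
  have hht : Tendsto h atTop (𝓝 0) := by
    have h1 : Tendsto (fun i : ℕ => κ * ((i : ℝ) * η)) atTop atTop :=
      (Tendsto.atTop_mul_const hη tendsto_natCast_atTop_atTop).const_mul_atTop hκ
    have h2 := (Real.tendsto_exp_neg_atTop_nhds_zero.comp h1).const_mul K0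
    rw [mul_zero] at h2
    exact h2
  obtain ⟨i0, hi0⟩ := eventually_atTop.1 (hb.and ((tendsto_order.1 hht).2 1 one_pos))
  set S := {p : ℕ × ℕ // i0 ≤ p.1 ∧ p.2 ∈ Bad p.1} with hS
  set φ : S → ℝ := fun t => g t.1.1 t.1.2 with hφ
  set H : S → ℝ := fun t => 1 / h t.1.1 with hH
  have hs0 : 0 ≤ 1 - c / κ := by
    rw [sub_nonneg, div_le_one hκ]; exact hcκ
  have hH1 : ∀ t, 1 ≤ H t := by
    intro t
    rw [hH]
    simp only
    rw [le_div_iff₀ (hh0 _), one_mul]
    exact (hi0 _ t.2.1).2.le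
  have key := Pool.Agent.H107.ME.dim_approx φ H hH1 hs0 one_pos (by
    intro ε hε
    -- the number of the relevant stages
    have hone : ∀ i X : ℝ, 0 < i → 0 < X → i ≤ X → i ^ (1 - c / κ) ≤ X ^ (1 - c / κ) := fun i X h1 h2 h3 =>
      Real.rpow_le_rpow h1.le h3 hs0
    obtain ⟨X1, hX1⟩ : ∃ C1 : ℝ, 0 < C1 ∧ ∀ X : ℝ, 1 ≤ X → ∀ i : ℕ, 1 / h i ≤ X →
        (i : ℝ) + 1 ≤ C1 * X ^ ε := by
      have hlog : ∃ C2 : ℝ, 0 < C2 ∧ ∀ X : ℝ, 1 ≤ X → Real.log X ≤ C2 * X ^ ε := by
        refine ⟨1 / ε, by positivity, fun X hX => ?_⟩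
        have := Real.log_le_rpow_div (by linarith : 0 ≤ X) hε
        refine this.trans (le_of_eq ?_)
        ring
      obtain ⟨C2, hC2, hl⟩ := hlog
      refine ⟨(C2 + |Real.log K0|) / (κ * η) + 1, by positivity, fun X hX i hi => ?_⟩
      have h1 : Real.exp (κ * (i * η)) ≤ K0 * X := by
        rw [div_le_iff₀ (hh0 i), hh] at hi
        simp only at hi
        have h2 : Real.exp (κ * (i * η)) * Real.exp (-(κ * (i * η))) = 1 := by rw [← Real.exp_add]; simp
        have h3 := Real.exp_pos (κ * (i * η))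
        calc Real.exp (κ * (i * η)) = Real.exp (κ * (i * η)) * 1 := (mul_one _).symm
          _ ≤ Real.exp (κ * (i * η)) * (X * (K0 * Real.exp (-(κ * (i * η))))) :=
            mul_le_mul_of_nonneg_left hi h3.le
          _ = (Real.exp (κ * (i * η)) * Real.exp (-(κ * (i * η)))) * (K0 * X) := by ring
          _ = _ := by rw [h2, one_mul]
      have hX0 : 0 < X := by linarith
      have h4 : κ * (i * η) ≤ Real.log K0 + Real.log X := by
        rw [← Real.log_mul hK0.ne' hX0.ne', ← Real.log_exp (κ * (i * η))]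
        exact Real.log_le_log (Real.exp_pos _) h1
      have h5 := hl X hX
      have h6 : (1 : ℝ) ≤ X ^ ε := Real.one_le_rpow hX hε.le
      have h7 : Real.log K0 ≤ |Real.log K0| * X ^ ε := by
        have := le_abs_self (Real.log K0)
        nlinarith [abs_nonneg (Real.log K0)]
      have hκη : 0 < κ * η := by positivity
      have h8 : (i : ℝ) ≤ (C2 + |Real.log K0|) / (κ * η) * X ^ ε := by
        rw [div_mul_eq_mul_div, le_div_iff₀ hκη]
        nlinarith
      linarith
    refine ⟨X1 * K0 ^ (-(c / κ)), fun X hX => ?_⟩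
    have hX0 : 0 < X := by linarith
    set F : Finset (ℕ × ℕ) := (Finset.range (⌊X1 * X ^ ε⌋₊)).biUnion
      (fun i => if 1 / h i ≤ X ∧ i0 ≤ i then (Bad i).image (fun k => (i, k)) else ∅) with hF
    have hsub : (fun t : S => t.1) '' {t : S | H t ≤ X} ⊆ ↑F := by
      rintro _ ⟨t, ht, rfl⟩
      rw [Set.mem_setOf_eq, hH] at ht
      simp only at ht
      rw [Finset.mem_coe, hF, Finset.mem_biUnion]
      refine ⟨t.1.1, ?_, ?_⟩
      · rw [Finset.mem_range]
        have := hX1.2 X hX t.1.1 ht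
        have h2 : t.1.1 + 1 ≤ ⌊X1 * X ^ ε⌋₊ := by
          apply Nat.le_floor
          push_cast
          exact this
        omega
      · rw [if_pos ⟨ht, t.2.1⟩, Finset.mem_image]
        exact ⟨t.1.2, t.2.2, rfl⟩
    have hinj : Set.InjOn (fun t : S => t.1) {t : S | H t ≤ X} := fun _ _ _ _ h => Subtype.ext h
    have hfin : {t : S | H t ≤ X}.Finite := Set.Finite.of_finite_image (F.finite_toSet.subset hsub) hinj
    refine ⟨hfin, ?_⟩
    have hc1 : {t : S | H t ≤ X}.ncard ≤ F.card := by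
      rw [← Set.ncard_image_of_injOn hinj, ← Set.ncard_coe_finset]
      exact Set.ncard_le_ncard hsub F.finite_toSet
    have hc2 : (F.card : ℝ) ≤ X1 * X ^ ε * (K0 ^ (-(c / κ)) * X ^ (1 - c / κ)) := by
      have h3 : (F.card : ℝ) ≤ ∑ i ∈ Finset.range (⌊X1 * X ^ ε⌋₊), (K0 ^ (-(c / κ)) * X ^ (1 - c / κ)) := by
        have h4 : (F.card : ℝ) ≤ ∑ i ∈ Finset.range (⌊X1 * X ^ ε⌋₊),
            (((if 1 / h i ≤ X ∧ i0 ≤ i then (Bad i).image (fun k => (i, k)) else ∅).card : ℕ) : ℝ) := by
          exact_mod_cast Finset.card_biUnion_le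
        refine h4.trans (Finset.sum_le_sum fun i _ => ?_)
        split_ifs with h5
        · have h6 : (((Bad i).image (fun k => (i, k))).card : ℝ) ≤ ((Bad i).card : ℝ) := by
            exact_mod_cast Finset.card_image_le
          refine h6.trans (((hi0 i h5.2).1).trans ?_)
          have e1 : Real.exp (-c * (i * η)) = (h i) ^ (c / κ) * K0 ^ (-(c / κ)) := by
            rw [hh]
            simp only
            rw [Real.mul_rpow hK0.le (Real.exp_pos _).le, ← Real.exp_mul, mul_comm (K0 ^ (c / κ)), mul_assoc,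
              ← Real.rpow_add hK0, add_neg_cancel, Real.rpow_zero, mul_one]
            congr 1
            field_simp
          have e2 : Real.exp (-c * (i * η)) / h i = K0 ^ (-(c / κ)) * (1 / h i) ^ (1 - c / κ) := by
            rw [e1, one_div, Real.inv_rpow (hh0 i).le, ← Real.rpow_neg (hh0 i).le, mul_comm, mul_div_assoc]
            congr 1
            rw [show -(1 - c / κ) = c / κ - 1 by ring, Real.rpow_sub (hh0 i), Real.rpow_one]
          show Real.exp (-c * (i * η)) / h i ≤ _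
          rw [e2]
          exact mul_le_mul_of_nonneg_left (Real.rpow_le_rpow (by have := hh0 i; positivity) h5.1 hs0)
            (Real.rpow_nonneg hK0.le _)
        · simp only [Finset.card_empty, Nat.cast_zero]
          positivity
      refine h3.trans ?_
      rw [Finset.sum_const, Finset.card_range, nsmul_eq_mul]
      refine mul_le_mul_of_nonneg_right (Nat.floor_le ?_) (by positivity)
      have := hX1.1
      positivity
    calc ({t : S | H t ≤ X}.ncard : ℝ) ≤ F.card := by exact_mod_cast hc1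
      _ ≤ _ := hc2
      _ = X1 * K0 ^ (-(c / κ)) * X ^ (1 - c / κ + ε) := by
          rw [Real.rpow_add hX0]
          ring)
  rw [div_one] at key
  refine le_trans (dimH_mono ?_) key
  intro v hv
  rw [Set.mem_setOf_eq] at hv ⊢
  have hv2 : {i : ℕ | i0 ≤ i ∧ ∃ k ∈ Bad i, |v - g i k| ≤ h i}.Infinite := by
    have h1 := hv.and_eventually (eventually_ge_atTop i0)
    rw [Nat.frequently_atTop_iff_infinite] at h1
    refine h1.mono ?_
    rintro i ⟨h2, h3⟩
    exact ⟨h3, h2⟩
  intro hfin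
  apply hv2
  refine (hfin.image (fun t : S => t.1.1)).subset ?_
  rintro i ⟨h1, k, hk, h2⟩
  refine ⟨⟨(i, k), h1, hk⟩, ?_, rfl⟩
  rw [Set.mem_setOf_eq, hφ, hH]
  simp only
  rw [Real.rpow_neg (by have := hh0 i; positivity), Real.rpow_one, one_div, inv_inv, Real.dist_eq, abs_sub_comm]
  exact h2

end Pool.Agent.Run7.h129.BD
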